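import Pool.Agent.R489.HC.Stm

set_option autoImplicit false

namespace Pool.Agent.R843.HC

open Pool.Agent.R489.HB Pool.Agent.R489.HC

variable {V : Type} [DecidableEq V] {G : SimpleGraph V}

theorem rep_u (P : Pt G) : rep P P.u = 1 - P.s := by
  unfold rep
  rcases P.h with ⟨h1, h2⟩ | ⟨h1, _, _⟩
  · simp [← h1, h2]
  · simp [Pi.single_eq_of_ne h1.ne]

theorem rep_w (P : Pt G) (h : P.u ≠ P.w) : rep P P.w = P.s := by
  unfold rep
  simp [Pi.single_eq_of_ne h.symm]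

theorem ends (P : Pt G) (x : V) (a : ℝ) (h : P.End x a) :
    ∃ (x' : V) (k : G.Walk x' x), 0 < rep P x' ∧ (1 - rep P x') + k.length = a := by
  have hs : 0 ≤ P.s ∧ P.s ≤ 1 := by
    rcases P.h with ⟨_, h2⟩ | ⟨_, h2, h3⟩
    · rw [h2]; norm_num
    · exact ⟨h2, h3⟩
  rcases h with ⟨rfl, rfl⟩ | ⟨hne, rfl, rfl⟩
  · by_cases h1 : P.s < 1
    · exact ⟨P.u, SimpleGraph.Walk.nil, by rw [rep_u]; linarith, by rw [rep_u]; simp⟩
    · have h1' : P.s = 1 := le_antisymm hs.2 (not_lt.1 h1)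
      rcases P.h with ⟨_, h2⟩ | ⟨hadj, _, _⟩
      · rw [h2] at h1'; norm_num at h1'
      · refine ⟨P.w, SimpleGraph.Walk.cons hadj.symm SimpleGraph.Walk.nil, ?_, ?_⟩
        · rw [rep_w P hadj.ne, h1']; norm_num
        · rw [rep_w P hadj.ne, h1']; simp
  · rcases P.h with ⟨h2, _⟩ | ⟨hadj, _, _⟩
    · exact absurd h2 hne
    by_cases h1 : 0 < P.s
    · exact ⟨P.w, SimpleGraph.Walk.nil, by rw [rep_w P hne]; exact h1,
        by rw [rep_w P hne]; simp⟩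
    · have h1' : P.s = 0 := le_antisymm (not_lt.1 h1) hs.1
      refine ⟨P.u, SimpleGraph.Walk.cons hadj SimpleGraph.Walk.nil, ?_, ?_⟩
      · rw [rep_u, h1']; norm_num
      · rw [rep_u, h1']; simp

theorem REP1 : S_REP1 := by
  intro V _ G P Q r h
  rcases h with ⟨hu, hw, hr⟩ | ⟨hadj, hu, hw, hr⟩ | ⟨x, y, a, b, k, hx, hy, hr⟩
  · rcases P.h with ⟨h1, h2⟩ | ⟨hadj, _, _⟩
    · have hQ : Q.s = 0 := by
        rcases Q.h with ⟨_, h4⟩ | ⟨h4, _, _⟩
        · exact h4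
        · exact absurd (hu.symm.trans (h1.trans hw)) h4.ne
      refine ⟨0, Or.inr ⟨P.u, P.u, SimpleGraph.Walk.nil, ?_, ?_, ?_⟩, ?_⟩
      · rw [rep_u, h2]; norm_num
      · rw [hu, rep_u, hQ]; norm_num
      · rw [rep_u, h2, hu, rep_u, hQ]; simp
      · exact (abs_nonneg _).trans hr
    · have hadjQ : Q.u ≠ Q.w := by rw [← hu, ← hw]; exact hadj.ne
      refine ⟨_, Or.inl ⟨P.u, P.w, hadj, ?_, ?_, rfl⟩, ?_⟩
      · rw [rep_u, rep_w P hadj.ne]; ring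
      · rw [hu, hw, rep_u, rep_w Q hadjQ]; ring
      · rw [rep_u, hu, rep_u]
        have : (1 - P.s - (1 - Q.s)) = -(P.s - Q.s) := by ring
        rw [this, abs_neg]; exact hr
  · have hadjQ : Q.u ≠ Q.w := by rw [← hu, ← hw]; exact hadj.ne.symm
    refine ⟨_, Or.inl ⟨P.u, P.w, hadj, ?_, ?_, rfl⟩, ?_⟩
    · rw [rep_u, rep_w P hadj.ne]; ring
    · rw [hu, hw, rep_u, rep_w Q hadjQ]; ring
    · rw [rep_u, hu, rep_w Q hadjQ]
      have : (1 - P.s - Q.s) = -(P.s - (1 - Q.s)) := by ring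
      rw [this, abs_neg]; exact hr
  · obtain ⟨x', k1, h1, h2⟩ := ends P x a hx
    obtain ⟨y', k2, h3, h4⟩ := ends Q y b hy
    refine ⟨_, Or.inr ⟨x', y', k1.append (k.append k2.reverse), h1, h3, rfl⟩, ?_⟩
    rw [SimpleGraph.Walk.length_append, SimpleGraph.Walk.length_append,
      SimpleGraph.Walk.length_reverse]
    push_cast
    linarith

end Pool.Agent.R843.HC
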